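import Pool.Agent.H24.Cup.Sub
import Pool.Agent.H24.Bip.Alg

/-!
The vertices whose arrival components are full: if there are no many pairwise separate full sets
then they are coloured by the merging rank of their component and the side of a distinguished vertex.
-/

namespace H24.Cup

open H7.Online H24.Bip H24.Bip.AlgAux

/-- a property of sets of vertices which is local and monotone -/
structure Fl (Q : SimpleGraph ℕ → Set ℕ → Prop) : Prop where
  mono : ∀ G D D', D ⊆ D' → Q G D → Q G D'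
  congr : ∀ G G' D, (∀ i ∈ D, ∀ j ∈ D, (G.Adj i j ↔ G'.Adj i j)) → Q G D → Q G' D

/-- the merging rank of full connected sets -/
def FRk (Q : SimpleGraph ℕ → Set ℕ → Prop) (G : SimpleGraph ℕ) : ℕ → Set ℕ → Prop
  | 0, s => Conn G s ∧ Q G s
  | r + 1, s => Conn G s ∧ ∃ s1 s2 : Set ℕ, s1 ⊆ s ∧ s2 ⊆ s ∧ Anti G s1 s2 ∧ FRk Q G r s1 ∧
      FRk Q G r s2

variable {Q : SimpleGraph ℕ → Set ℕ → Prop}

theorem FRk.conn {G : SimpleGraph ℕ} {r : ℕ} {s : Set ℕ} (h : FRk Q G r s) : Conn G s := by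
  cases r with
  | zero => exact h.1
  | succ r => exact h.1

theorem FRk.full (hQ : Fl Q) {G : SimpleGraph ℕ} {r : ℕ} : ∀ {s : Set ℕ}, FRk Q G r s → Q G s := by
  induction r with
  | zero => intro s h; exact h.2
  | succ r ih =>
    rintro s ⟨-, s1, s2, h1, -, -, h4, -⟩
    exact hQ.mono G s1 s h1 (ih h4)

theorem FRk_congr (hQ : Fl Q) {G G' : SimpleGraph ℕ} {r : ℕ} : ∀ {s : Set ℕ},
    (∀ i ∈ s, ∀ j ∈ s, (G.Adj i j ↔ G'.Adj i j)) → FRk Q G r s → FRk Q G' r s := by
  induction r with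
  | zero => intro s h hs; exact ⟨Conn_congr h hs.1, hQ.congr _ _ _ h hs.2⟩
  | succ r ih =>
    rintro s h ⟨hc, s1, s2, h1, h2, h3, h4, h5⟩
    refine ⟨Conn_congr h hc, s1, s2, h1, h2, ?_, ih (fun i hi j hj => h i (h1 hi) j (h1 hj)) h4,
      ih (fun i hi j hj => h i (h2 hi) j (h2 hj)) h5⟩
    intro a ha b hb
    exact ⟨(h3 a ha b hb).1, fun h' => (h3 a ha b hb).2 ((h a (h1 ha) b (h2 hb)).mpr h')⟩

/-- many pairwise separate full sets -/
theorem FRk.sets (hQ : Fl Q) {G : SimpleGraph ℕ} {r : ℕ} : ∀ {s : Set ℕ}, FRk Q G r s →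
    ∃ E : ℕ → Set ℕ, (∀ i ≤ r, E i ⊆ s ∧ Q G (E i)) ∧
      ∀ i ≤ r, ∀ j ≤ r, i ≠ j → Anti G (E i) (E j) := by
  induction r with
  | zero =>
    intro s h
    refine ⟨fun _ => s, fun i _ => ⟨subset_rfl, h.2⟩, ?_⟩
    intro i hi j hj hij
    omega
  | succ r ih =>
    rintro s ⟨hc, s1, s2, h1, h2, h3, h4, h5⟩
    obtain ⟨E, e1, e2⟩ := ih h4
    refine ⟨fun i => if i ≤ r then E i else s2, ?_, ?_⟩
    · intro i hi
      by_cases h : i ≤ r
      · simp only [if_pos h]
        exact ⟨(e1 i h).1.trans h1, (e1 i h).2⟩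
      · simp only [if_neg h]
        exact ⟨h2, h5.full hQ⟩
    · intro i hi j hj hij
      by_cases h : i ≤ r
      · by_cases h' : j ≤ r
        · simp only [if_pos h, if_pos h']
          exact e2 i h j h' hij
        · simp only [if_pos h, if_neg h']
          intro a ha b hb
          exact h3 a ((e1 i h).1 ha) b hb
      · by_cases h' : j ≤ r
        · simp only [if_neg h, if_pos h']
          intro a ha b hb
          have := h3 b ((e1 j h').1 hb) a ha
          exact ⟨this.1.symm, fun h'' => this.2 h''.symm⟩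
        · omega

/-! ### the colours -/

/-- the vertices with a full arrival component -/
def SF (Q : SimpleGraph ℕ → Set ℕ → Prop) (G : SimpleGraph ℕ) (v : ℕ) : Prop := Q G (C G v)

open Classical in
/-- the rank, at most `B` -/
noncomputable def rho (Q : SimpleGraph ℕ → Set ℕ → Prop) (B : ℕ) (G : SimpleGraph ℕ) (v : ℕ) : ℕ :=
  Nat.findGreatest (fun r => FRk Q G r (C G v)) B

/-- the first vertex of the component with at least this rank -/
noncomputable def fr (Q : SimpleGraph ℕ → Set ℕ → Prop) (G : SimpleGraph ℕ) (r v : ℕ) : ℕ :=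
  sInf {m | m ∈ C G v ∧ FRk Q G r (C G m)}

/-- `fr v` is on the side of `v` -/
def side (Q : SimpleGraph ℕ → Set ℕ → Prop) (B : ℕ) (G : SimpleGraph ℕ) (v : ℕ) : Prop :=
  ∃ c : ℕ → Bool, Pr G c (C G v) ∧ c v = true ∧ c (fr Q G (rho Q B G v) v) = true

open Classical in
/-- the raw colour -/
noncomputable def code (Q : SimpleGraph ℕ → Set ℕ → Prop) (B : ℕ) (G : SimpleGraph ℕ) (v : ℕ) : ℕ :=
  2 * rho Q B G v + if side Q B G v then 1 else 0

theorem agr_of_ag {G G' : SimpleGraph ℕ} {n : ℕ} (h : Ag G G' n) :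
    Agr G G' Set.univ Set.univ n :=
  ⟨fun _ _ => Iff.rfl, fun i _ j _ hi hj => h i j hi hj⟩

theorem C_adj {G G' : SimpleGraph ℕ} {n : ℕ} (h : Ag G G' n) :
    ∀ i ∈ C G n, ∀ j ∈ C G n, (G.Adj i j ↔ G'.Adj i j) :=
  fun _ hi _ hj => h _ _ (C_sub hi) (C_sub hj)

theorem C_ag {G G' : SimpleGraph ℕ} {n : ℕ} (h : Ag G G' n) : C G n = C G' n :=
  C_congr (agr_of_ag h)

theorem FRk_C (hQ : Fl Q) {G G' : SimpleGraph ℕ} {n r : ℕ} (h : Ag G G' n) :
    FRk Q G r (C G n) ↔ FRk Q G' r (C G' n) := by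
  rw [← C_ag h]
  exact ⟨FRk_congr hQ (C_adj h), FRk_congr hQ (fun i hi j hj => (C_adj h i hi j hj).symm)⟩

theorem rho_ag (hQ : Fl Q) {B : ℕ} {G G' : SimpleGraph ℕ} {n : ℕ} (h : Ag G G' n) :
    rho Q B G n = rho Q B G' n := by
  classical
  have key : ∀ G G' : SimpleGraph ℕ, Ag G G' n → rho Q B G n ≤ rho Q B G' n := by
    intro G G' h
    unfold rho
    exact Nat.findGreatest_mono_left (fun r hr => (FRk_C hQ h).mp hr) B
  exact le_antisymm (key G G' h) (key G' G h.symm)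

theorem fr_ag (hQ : Fl Q) {G G' : SimpleGraph ℕ} {r n : ℕ} (h : Ag G G' n) :
    fr Q G r n = fr Q G' r n := by
  unfold fr
  congr 1
  ext m
  simp only [Set.mem_ofPred_eq]
  rw [← C_ag h]
  constructor
  · rintro ⟨h1, h2⟩
    exact ⟨h1, (FRk_C hQ (h.le (C_sub h1))).mp h2⟩
  · rintro ⟨h1, h2⟩
    exact ⟨h1, (FRk_C hQ (h.le (C_sub h1))).mpr h2⟩

theorem side_ag_imp (hQ : Fl Q) {B : ℕ} {G G' : SimpleGraph ℕ} {n : ℕ} (h : Ag G G' n)
    (hs : side Q B G n) : side Q B G' n := by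
  obtain ⟨c, h1, h2, h3⟩ := hs
  refine ⟨c, ?_, h2, ?_⟩
  · rw [← C_ag h]
    exact Pr_congr (C_adj h) h1
  · rw [← rho_ag hQ h, ← fr_ag hQ h]
    exact h3

theorem code_ag (hQ : Fl Q) {B : ℕ} {G G' : SimpleGraph ℕ} {n : ℕ} (h : Ag G G' n) :
    code Q B G n = code Q B G' n := by
  unfold code
  rw [rho_ag hQ h]
  by_cases h1 : side Q B G n
  · rw [if_pos h1, if_pos (side_ag_imp hQ h h1)]
  · rw [if_neg h1, if_neg (fun h' => h1 (side_ag_imp hQ h.symm h'))]

theorem SF_ag (hQ : Fl Q) {G G' : SimpleGraph ℕ} {n : ℕ} (h : Ag G G' n) (hs : SF Q G n) :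
    SF Q G' n := by
  unfold SF at hs ⊢
  rw [← C_ag h]
  exact hQ.congr _ _ _ (C_adj h) hs

section cls
variable {G : SimpleGraph ℕ} {m : ℕ} {c : ℕ → Bool}

theorem rho_spec (B : ℕ) {v : ℕ} (hv : SF Q G v) : FRk Q G (rho Q B G v) (C G v) := by
  classical
  unfold rho
  exact Nat.findGreatest_spec (P := fun r => FRk Q G r (C G v)) (Nat.zero_le B) ⟨conn_C v, hv⟩

theorem rho_max {B : ℕ} {v : ℕ} (hB : ¬ FRk Q G B (C G v)) (hv : SF Q G v) :
    ¬ FRk Q G (rho Q B G v + 1) (C G v) := by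
  classical
  intro h
  have h1 := rho_spec B hv
  have h2 : rho Q B G v ≤ B := Nat.findGreatest_le B
  have h3 : rho Q B G v ≠ B := by
    intro h3
    rw [h3] at h1
    exact hB h1
  have h4 : rho Q B G v + 1 ≤ rho Q B G v :=
    Nat.le_findGreatest (P := fun r => FRk Q G r (C G v)) (by omega) h
  omega

theorem fr_mem {r v : ℕ} (h : FRk Q G r (C G v)) :
    fr Q G r v ∈ C G v ∧ FRk Q G r (C G (fr Q G r v)) :=
  Nat.sInf_mem (s := {m | m ∈ C G v ∧ FRk Q G r (C G m)}) ⟨v, mem_C G v, h⟩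

theorem fr_le {r v x : ℕ} (h1 : x ∈ C G v) (h2 : FRk Q G r (C G x)) : fr Q G r v ≤ x :=
  Nat.sInf_le (s := {m | m ∈ C G v ∧ FRk Q G r (C G m)}) ⟨h1, h2⟩

theorem side_iff (B : ℕ) (hc : ∀ i < m, ∀ j < m, G.Adj i j → c i ≠ c j) {v : ℕ} (hv : v < m)
    (hs : SF Q G v) : side Q B G v ↔ c (fr Q G (rho Q B G v) v) = c v := by
  have hw := (fr_mem (rho_spec B hs)).1
  constructor
  · rintro ⟨d, h1, h2, h3⟩
    have hcd := uniq_col (conn_C v) (Pr_nrm (Pr_C hc hv) v) h1 (mem_C G v)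
      ((nrm_self v).trans h2.symm) _ hw
    rw [h3] at hcd
    unfold AlgAux.nrm at hcd
    revert hcd
    cases c (fr Q G (rho Q B G v) v) <;> cases c v <;> simp
  · intro h
    refine ⟨AlgAux.nrm c v, Pr_nrm (Pr_C hc hv) v, nrm_self v, ?_⟩
    unfold AlgAux.nrm
    rw [h]
    cases c v <;> rfl

theorem code_ne {B : ℕ} (hc : ∀ i < m, ∀ j < m, G.Adj i j → c i ≠ c j)
    (hB : ∀ v < m, ¬ FRk Q G B (C G v)) {u v : ℕ} (huv : u < v)
    (hv : v < m) (su : SF Q G u) (sv : SF Q G v) (hadj : G.Adj u v) :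
    code Q B G u ≠ code Q B G v := by
  classical
  intro hcode
  have hu : u < m := huv.trans hv
  have hcuv : c u ≠ c v := hc u hu v hv hadj
  have hρ : rho Q B G u = rho Q B G v := by
    unfold code at hcode
    split_ifs at hcode <;> omega
  have hside : side Q B G u ↔ side Q B G v := by
    unfold code at hcode
    by_cases h1 : side Q B G u <;> by_cases h2 : side Q B G v <;> simp [h1, h2] at hcode ⊢ <;> omega
  have huC : u ∈ C G v := comp_step (mem_C G v) hadj.symm ⟨Set.mem_univ _, huv.le⟩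
  have hsub : C G u ⊆ C G v := C_time huC
  have ru := rho_spec B su
  have rv := rho_spec B sv
  have hwu := fr_mem ru
  have hwv := fr_mem rv
  rw [side_iff B hc hu su, side_iff B hc hv sv] at hside
  rw [hρ] at hwu ru hside
  set r := rho Q B G v with hr
  have hle : fr Q G r v ≤ fr Q G r u := fr_le (hsub hwu.1) hwu.2
  have hnot : fr Q G r v ∉ C G u := by
    intro h
    have h1 : fr Q G r u ≤ fr Q G r v := fr_le h hwv.2
    have h2 : fr Q G r u = fr Q G r v := le_antisymm h1 hle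
    rw [h2] at hside
    revert hside hcuv
    cases c (fr Q G r v) <;> cases c u <;> cases c v <;> simp
  have hwu' : fr Q G r v ≤ u := hle.trans (C_sub hwu.1)
  exact rho_max (hB v hv) sv ⟨conn_C v, C G u, C G (fr Q G r v), hsub, C_time hwv.1,
    anti_C hwu' hnot, ru, hwv.2⟩

end cls

theorem pa_side (hQ : Fl Q) (B : ℕ) {Z : Set FG} (hZ : ∀ (G : SimpleGraph ℕ) (m : ℕ), ∀ Y ∈ Z,
      Init G m Y → (∃ c : ℕ → Bool, ∀ i < m, ∀ j < m, G.Adj i j → c i ≠ c j) ∧
        ∀ v < m, ¬ FRk Q G B (C G v)) :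
    ∃ A, PA (SF Q) A ∧ BPA (SF Q) A Z (2 * B + 2) := by
  classical
  let ok : SimpleGraph ℕ → ℕ → Prop := fun G v =>
    ∀ i j : ℕ, i < j → j ≤ v → SF Q G i → SF Q G j → G.Adj i j → code Q B G i ≠ code Q B G j
  let A : ℕ → SimpleGraph ℕ → ℕ := fun v G =>
    if ok G v then 2 * code Q B G v else 2 * v + 1
  have e1 : ∀ v G, ok G v → A v G = 2 * code Q B G v := fun v G h => by simp only [A, if_pos h]
  have e2 : ∀ v G, ¬ ok G v → A v G = 2 * v + 1 := fun v G h => by simp only [A, if_neg h]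
  have hok : ∀ n G G', Ag G G' n → ok G n → ok G' n := by
    intro n G G' h hG i j hij hj si sj hadj
    rw [← code_ag hQ (h.le (hij.le.trans hj)), ← code_ag hQ (h.le hj)]
    exact hG i j hij hj (SF_ag hQ (h.le (hij.le.trans hj)).symm si) (SF_ag hQ (h.le hj).symm sj)
      ((h i j (hij.le.trans hj) hj).mpr hadj)
  refine ⟨A, ⟨fun n G G' h => SF_ag hQ h, ?_, ?_⟩, ?_⟩
  · intro n G G' h _
    by_cases hG : ok G n
    · rw [e1 n G hG, e1 n G' (hok n G G' h hG), code_ag hQ h]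
    · rw [e2 n G hG, e2 n G' (fun h' => hG (hok n G' G h.symm h'))]
  · intro G i j hij si sj hadj
    by_cases hj : ok G j
    · have hi : ok G i := fun a b hab hb sa sb hadj => hj a b hab (hb.trans hij.le) sa sb hadj
      rw [e1 i G hi, e1 j G hj]
      have := hj i j hij le_rfl si sj hadj
      omega
    · rw [e2 j G hj]
      by_cases hi : ok G i
      · rw [e1 i G hi]; omega
      · rw [e2 i G hi]; omega
  · intro G m Y hY hI
    obtain ⟨⟨c, hc⟩, hB⟩ := hZ G m Y hY hI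
    have hsub : (((Finset.range m).filter (fun v => SF Q G v)).image (fun v => A v G)) ⊆
        (Finset.range (2 * B + 2)).image (fun x => 2 * x) := by
      intro x hx
      rw [Finset.mem_image] at hx ⊢
      obtain ⟨v, hv, rfl⟩ := hx
      rw [Finset.mem_filter, Finset.mem_range] at hv
      have hokv : ok G v := fun i j hij hj si sj hadj =>
        code_ne hc hB hij (hj.trans_lt hv.1) si sj hadj
      refine ⟨code Q B G v, ?_, (e1 v G hokv).symm⟩
      rw [Finset.mem_range]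
      have h1 : rho Q B G v ≤ B := Nat.findGreatest_le B
      unfold code
      split_ifs <;> omega
    calc _ ≤ _ := Finset.card_le_card hsub
      _ ≤ _ := Finset.card_image_le
      _ = _ := Finset.card_range _

end H24.Cup
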