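import Pool.Agent.H24.Cup.Defs
import Pool.Agent.H24.Cup.Side

/-!
The closure theorem.
-/

namespace H24.Cup

open H7.Online H24.Bip H24.Bip.AlgAux

/-- `G` contains a member of `F` inside `D` -/
def Qf (F : Set FG) (G : SimpleGraph ℕ) (D : Set ℕ) : Prop :=
  ∃ X ∈ F, ∃ f : X.2 ↪g G, Set.range f ⊆ D

theorem fl_Qf (F : Set FG) : Fl (Qf F) where
  mono := by
    rintro G D D' h ⟨X, hX, f, hf⟩
    exact ⟨X, hX, f, hf.trans h⟩
  congr := by
    rintro G G' D h ⟨X, hX, f, hf⟩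
    refine ⟨X, hX, ⟨f.toEmbedding, ?_⟩, hf⟩
    intro a b
    rw [← f.map_adj_iff]
    exact (h _ (hf ⟨a, rfl⟩) _ (hf ⟨b, rfl⟩)).symm

theorem fl_all {r : ℕ} (F : Fin r → Set FG) : Fl (fun G D => ∀ i, Qf (F i) G D) where
  mono := fun G D D' h hQ i => (fl_Qf (F i)).mono G D D' h (hQ i)
  congr := fun G G' D h hQ i => (fl_Qf (F i)).congr G G' D h (hQ i)

theorem OnlineLE.emb {X Y : FG} {k : ℕ} (h : OnlineLE Y k) (hXY : Emb X Y) : OnlineLE X k := by
  obtain ⟨B, h1, h2⟩ := h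
  refine ⟨B, h1, ?_⟩
  intro G σ hσ
  exact card_of_init h1 h2 ((init_of_presents (X := X) hσ).emb hXY)

theorem colorable_emb {X Y : FG} {k : ℕ} (h : Y.2.Colorable k) (hXY : Emb X Y) :
    X.2.Colorable k := by
  obtain ⟨e⟩ := hXY
  exact h.of_hom e.toHom

/-- a connected copy lies in the arrival component of its last vertex -/
theorem copy_in_C {X : FG} (hX : Conn X.2 Set.univ) {G : SimpleGraph ℕ} {φ : Fin X.1 → ℕ}
    (hφ : ∀ a b, X.2.Adj a b → G.Adj (φ a) (φ b)) {a0 : Fin X.1} (h0 : ∀ a, φ a ≤ φ a0) :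
    ∀ a, φ a ∈ C G (φ a0) := by
  intro a
  have h1 := hX.2 a0 (Set.mem_univ _) a (Set.mem_univ _)
  induction h1 with
  | refl => exact mem_C G _
  | tail _ h2 ih => exact comp_step ih (hφ _ _ h2.1) ⟨Set.mem_univ _, h0 _⟩

theorem last_vertex {X : FG} (hX : Conn X.2 Set.univ) (φ : Fin X.1 → ℕ) :
    ∃ a0, ∀ a, φ a ≤ φ a0 := by
  obtain ⟨x, -⟩ := hX.1
  have : Nonempty (Fin X.1) := ⟨x⟩
  obtain ⟨a0, -, h⟩ := Finset.exists_max_image Finset.univ φ Finset.univ_nonempty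
  exact ⟨a0, fun a => h a (Finset.mem_univ _)⟩

theorem emb_of_init {G : SimpleGraph ℕ} {m : ℕ} {Y : FG} (hI : Init G m Y) {c : ℕ}
    {f : Fin c → ℕ} (hf : Function.Injective f) (hm : ∀ i, f i < m) :
    Emb (⟨c, G.comap f⟩ : FG) Y := by
  obtain ⟨g, h1, h2⟩ := hI
  refine ⟨⟨⟨fun i => g ⟨f i, hm i⟩, ?_⟩, ?_⟩⟩
  · intro i j hij
    have h3 := h1 hij
    exact hf (congrArg Fin.val h3)
  · intro i j
    exact h2 _ _

theorem closure_k {r : ℕ} (F : Fin r → Set FG) (hconn : ∀ i, ∀ X ∈ F i, Conn X.2 Set.univ)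
    (k : ℕ) (h : ∀ i, ∃ N A, Handles A
      {Y : FG | Y.2.Colorable 2 ∧ (∀ X ∈ F i, ¬ Emb X Y) ∧ OnlineLE Y k} N) :
    ∃ (N : ℕ) (A : ℕ → SimpleGraph ℕ → ℕ), Handles A
      {Y : FG | Y.2.Colorable 2 ∧ ¬ HasUnion Y.2 F ∧ OnlineLE Y k} N := by
  classical
  set Z : Set FG := {Y : FG | Y.2.Colorable 2 ∧ ¬ HasUnion Y.2 F ∧ OnlineLE Y k} with hZ
  -- the vertices whose components are not full
  have hpart : ∀ i, ∃ N A, PA (fun G v => ¬ Qf (F i) G (C G v)) A ∧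
      BPA (fun G v => ¬ Qf (F i) G (C G v)) A Z N := by
    intro i
    obtain ⟨N, A, hA⟩ := h i
    obtain ⟨A', h1, h2⟩ := pa_sub (S := fun G v => ¬ Qf (F i) G (C G v)) (Z := Z) (by
        intro n G G' hG h1 h2
        apply h1
        rw [C_ag hG]
        exact (fl_Qf (F i)).congr _ _ _ (C_adj hG.symm) h2) hA (by
        rintro G m Y ⟨hY1, hY2, hY3⟩ hI c f hf hS
        have hE := emb_of_init hI hf (fun i => (hS i).1)
        refine ⟨colorable_emb hY1 hE, ?_, OnlineLE.emb hY3 hE⟩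
        rintro X hX ⟨e⟩
        obtain ⟨a0, ha0⟩ := last_vertex (hconn i X hX) (fun a => f (e a))
        have hin := copy_in_C (G := G) (φ := fun a => f (e a)) (hconn i X hX)
          (fun a b hab => by
            have := e.map_adj_iff.mpr hab
            exact this) ha0
        apply (hS (e a0)).2
        refine ⟨X, hX, ⟨⟨fun a => f (e a), fun a b hab => e.injective (hf hab)⟩, ?_⟩, ?_⟩
        · intro a b
          exact e.map_adj_iff
        · rintro _ ⟨a, rfl⟩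
          exact hin a)
    exact ⟨N, A', h1, h2⟩
  have hpoor : ∀ j ≤ r, ∃ N A, PA (fun G v => ∃ i : Fin r, (i : ℕ) < j ∧ ¬ Qf (F i) G (C G v)) A ∧
      BPA (fun G v => ∃ i : Fin r, (i : ℕ) < j ∧ ¬ Qf (F i) G (C G v)) A Z N := by
    intro j
    induction j with
    | zero =>
      intro _
      obtain ⟨h1, h2⟩ := pa_empty (S := fun G v => ∃ i : Fin r, (i : ℕ) < 0 ∧ ¬ Qf (F i) G (C G v))
        (fun G v ⟨i, hi, _⟩ => absurd hi (Nat.not_lt_zero _)) Z
      exact ⟨0, _, h1, h2⟩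
    | succ j ih =>
      intro hj
      obtain ⟨N1, A1, h1, h2⟩ := ih (by omega)
      obtain ⟨N2, A2, h3, h4⟩ := hpart ⟨j, by omega⟩
      obtain ⟨A, h5, h6⟩ := pa_union
        (S := fun G v => ∃ i : Fin r, (i : ℕ) < j + 1 ∧ ¬ Qf (F i) G (C G v)) (by
          intro G v
          constructor
          · rintro ⟨i, hi, h⟩
            rcases Nat.lt_succ_iff_lt_or_eq.mp hi with h' | h'
            · exact Or.inl ⟨i, h', h⟩
            · right
              have : i = ⟨j, by omega⟩ := Fin.ext h'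
              rw [← this]
              exact h
          · rintro (⟨i, hi, h⟩ | h)
            · exact ⟨i, by omega, h⟩
            · exact ⟨⟨j, by omega⟩, Nat.lt_succ_self j, h⟩) h1 h3 h2 h4
      exact ⟨_, A, h5, h6⟩
  obtain ⟨N1, A1, h1, h2⟩ := hpoor r le_rfl
  -- the other vertices
  obtain ⟨A2, h3, h4⟩ := pa_side (fl_all F) r (Z := Z) (by
    rintro G m Y ⟨hY1, hY2, hY3⟩ hI
    obtain ⟨g, g1, g2⟩ := hI
    constructor
    · obtain ⟨c0⟩ := hY1
      refine ⟨fun i => if hi : i < m then decide (c0 (g ⟨i, hi⟩) = 1) else false, ?_⟩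
      intro i hi j hj hij heq
      simp only [dif_pos hi, dif_pos hj] at heq
      have h1 := c0.valid ((g2 ⟨i, hi⟩ ⟨j, hj⟩).mpr hij)
      have h2 : (c0 (g ⟨i, hi⟩) = 1) ↔ (c0 (g ⟨j, hj⟩) = 1) := by simpa using heq
      generalize c0 (g ⟨i, hi⟩) = a at h1 h2
      generalize c0 (g ⟨j, hj⟩) = b at h1 h2
      revert a b
      decide
    · intro v hv hR
      obtain ⟨E, e1, e2⟩ := hR.sets (fl_all F)
      have hEm : ∀ i ≤ r, ∀ x ∈ E i, x < m := fun i hi x hx =>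
        (C_sub ((e1 i hi).1 hx)).trans_lt hv
      have hch : ∀ i : Fin r, ∃ X ∈ F i, ∃ f : X.2 ↪g G, Set.range f ⊆ E i := fun i =>
        (e1 i i.2.le).2 i
      choose X hX f hf using hch
      apply hY2
      have hlt : ∀ (i : Fin r) (a : Fin (X i).1), f i a < m := fun i a =>
        hEm i i.2.le _ (hf i ⟨a, rfl⟩)
      refine ⟨X, hX, fun i => ⟨⟨fun a => g ⟨f i a, hlt i a⟩, ?_⟩, ?_⟩, ?_⟩
      · intro a b hab
        have := congrArg Fin.val (g1 hab)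
        exact (f i).injective this
      · intro a b
        exact (g2 _ _).trans (f i).map_adj_iff
      · intro i j hij
        rintro _ ⟨a, rfl⟩ _ ⟨b, rfl⟩
        have h5 := e2 i i.2.le j j.2.le (fun h => hij (Fin.ext h)) _ (hf i ⟨a, rfl⟩) _
          (hf j ⟨b, rfl⟩)
        refine ⟨fun h => h5.1 (congrArg Fin.val (g1 h)), fun h => h5.2 ((g2 _ _).mp h)⟩)
  obtain ⟨A, h5, h6⟩ := pa_union (S := fun _ _ => True) (by
    intro G v
    refine ⟨fun _ => ?_, fun _ => trivial⟩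
    by_cases h : SF (fun G D => ∀ i, Qf (F i) G D) G v
    · exact Or.inr h
    · left
      unfold SF at h
      push Not at h
      obtain ⟨i, hi⟩ := h
      exact ⟨i, i.2, hi⟩) h1 h3 h2 h4
  exact ⟨_, A, pa_total (fun _ _ => trivial) h5 h6⟩

theorem closure {r : ℕ} (F : Fin r → Set FG) (hconn : ∀ i, ∀ X ∈ F i, Conn X.2 Set.univ)
    (h : ∀ i, Bdd {Y : FG | Y.2.Colorable 2 ∧ ∀ X ∈ F i, ¬ Emb X Y}) :
    Bdd {Y : FG | Y.2.Colorable 2 ∧ ¬ HasUnion Y.2 F} := by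
  have h1 : ∀ k, ∃ (N : ℕ) (A : ℕ → SimpleGraph ℕ → ℕ), Handles A
      {Y : FG | Y.2.Colorable 2 ∧ ¬ HasUnion Y.2 F ∧ OnlineLE Y k} N := by
    intro k
    refine closure_k F hconn k fun i => ?_
    obtain ⟨A, hA, f, hf⟩ := h i
    exact ⟨f k, A, handles_of_uses hA (fun Y hY => hf Y ⟨hY.1, hY.2.1⟩ k hY.2.2)⟩
  choose N A hA using h1
  obtain ⟨A', hA1, hA2⟩ := combine hA
  exact ⟨A', hA1, _, fun Y hY k hk => hA2 k Y ⟨hY.1, hY.2, hk⟩⟩

theorem conn_univ {X : FG} (h : X.2.Connected) : Conn X.2 Set.univ := by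
  obtain ⟨x⟩ := h.nonempty
  refine ⟨⟨x, Set.mem_univ _⟩, ?_⟩
  rintro a - b -
  have h1 := (SimpleGraph.reachable_iff_reflTransGen a b).mp (h.preconnected a b)
  induction h1 with
  | refl => exact Relation.ReflTransGen.refl
  | tail _ h ih => exact ih.tail ⟨h, Set.mem_univ _⟩

end H24.Cup
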