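import Pool.Agent.H24.Bip.Defs
import Pool.Agent.H7.Online.Wqo

/-!
Disjoint unions of connected forbidden induced subgraphs.
-/

namespace H24.Cup

open H7.Online H24.Bip

/-- the class `D` of finite graphs is on-line `χ_OL`-bounded -/
def Bdd (D : Set FG) : Prop := ∃ A : ℕ → SimpleGraph ℕ → ℕ, IsOnline A ∧ ∃ h : ℕ → ℕ,
  ∀ Y ∈ D, ∀ k : ℕ, OnlineLE Y k → UsesAtMost A Y.2 (h k)

/-- the graph `H` contains as an induced subgraph the disjoint union of some graphs
`X 0, …, X (r - 1)` with `X i` in the family `F i` -/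
def HasUnion {V : Type} (H : SimpleGraph V) {r : ℕ} (F : Fin r → Set FG) : Prop :=
  ∃ X : Fin r → FG, (∀ i, X i ∈ F i) ∧ ∃ f : ∀ i, (X i).2 ↪g H,
    ∀ i j, i ≠ j → Anti H (Set.range (f i)) (Set.range (f j))

/-- the path with `n` vertices and, for `n > 11`, the double laminar graphs of depth `d` whose
paths have an odd length -/
def Obs (n d : ℕ) : Set FG :=
  {X | X = ⟨n, SimpleGraph.pathGraph n⟩ ∨
    (11 < n ∧ ∃ (l : ℕ) (A B : Set (Fin X.1)), Odd l ∧ DLam X.2 l d Set.univ A B)}

/-- the connected graphs which contain an induced half graph or crown of order `t` -/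
def Stb (t : ℕ) : Set FG := {X | X.2.Connected ∧ (HasHalfGraph X.2 t ∨ HasCrown X.2 t)}

end H24.Cup
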