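import Pool.Agent.H24.Cup.Defs
import Pool.Agent.H24.Cup.Clo
import Pool.Agent.H24.Bip.Fin

/-!
Paths and double laminar graphs as forbidden subgraphs.
-/

namespace H24.Cup

open H7.Online H24.Bip

theorem dlam_basic {V : Type} {H : SimpleGraph V} {l : ℕ} : ∀ {d : ℕ} {E A B : Set V},
    DLam H l d E A B → A ⊆ E ∧ B ⊆ E ∧ A.Nonempty ∧ B.Nonempty ∧ Conn H E
  | 0, E, A, B, h => by
    obtain ⟨p, hp, hadj, rfl, rfl, rfl⟩ := h
    refine ⟨?_, ?_, ⟨_, rfl⟩, ⟨_, rfl⟩, ⟨p 0, Set.mem_range_self _⟩, ?_⟩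
    · rintro _ rfl
      exact Set.mem_range_self _
    · rintro _ rfl
      exact Set.mem_range_self _
    · have key1 : ∀ n (hn : n < l + 1), Relation.ReflTransGen
          (fun u v => H.Adj u v ∧ v ∈ Set.range p) (p 0) (p ⟨n, hn⟩) := by
        intro n
        induction n with
        | zero => intro _; exact Relation.ReflTransGen.refl
        | succ n ih =>
          intro hn
          exact (ih (by omega)).tail ⟨(hadj _ _).mpr (Or.inl rfl), Set.mem_range_self _⟩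
      have key2 : ∀ n (hn : n < l + 1), Relation.ReflTransGen
          (fun u v => H.Adj u v ∧ v ∈ Set.range p) (p ⟨n, hn⟩) (p 0) := by
        intro n
        induction n with
        | zero => intro _; exact Relation.ReflTransGen.refl
        | succ n ih =>
          intro hn
          exact Relation.ReflTransGen.head ⟨(hadj _ _).mpr (Or.inr rfl), Set.mem_range_self _⟩
            (ih (by omega))
      rintro _ ⟨i, rfl⟩ _ ⟨j, rfl⟩
      exact (key2 i i.2).trans (key1 j j.2)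
  | d + 1, E, A, B, h => by
    obtain ⟨x, y, E1, A1, B1, E2, A2, B2, h1, h2, ha, hx, hy, hxy, hn, hxadj, hyadj, rfl, rfl,
      rfl⟩ := h
    obtain ⟨a1, b1, ⟨u1, hu1⟩, ⟨v1, hv1⟩, c1⟩ := dlam_basic h1
    obtain ⟨a2, b2, ⟨u2, hu2⟩, ⟨v2, hv2⟩, c2⟩ := dlam_basic h2
    set E : Set V := insert x (insert y (E1 ∪ E2)) with hE
    have s1 : E1 ⊆ E := fun z hz => Or.inr (Or.inr (Or.inl hz))
    have s2 : E2 ⊆ E := fun z hz => Or.inr (Or.inr (Or.inr hz))
    have xE : x ∈ E := Or.inl rfl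
    have yE : y ∈ E := Or.inr (Or.inl rfl)
    refine ⟨?_, ?_, ⟨u1, Or.inl hu1⟩, ⟨v1, Or.inl hv1⟩, ⟨x, xE⟩, ?_⟩
    · rintro z (hz | hz)
      · exact s1 (a1 hz)
      · exact s2 (a2 hz)
    · rintro z (hz | hz)
      · exact s1 (b1 hz)
      · exact s2 (b2 hz)
    · have x1 : H.Adj x u1 := (hxadj u1 (Or.inl (a1 hu1))).mpr (Or.inl hu1)
      have x2 : H.Adj x u2 := (hxadj u2 (Or.inr (a2 hu2))).mpr (Or.inr hu2)
      have y1 : H.Adj y v1 := (hyadj v1 (Or.inl (b1 hv1))).mpr (Or.inl hv1)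
      have lift1 : ∀ a b, Relation.ReflTransGen (fun u v => H.Adj u v ∧ v ∈ E1) a b →
          Relation.ReflTransGen (fun u v => H.Adj u v ∧ v ∈ E) a b := fun a b h => by
        induction h with
        | refl => exact Relation.ReflTransGen.refl
        | tail _ h ih => exact ih.tail ⟨h.1, s1 h.2⟩
      have lift2 : ∀ a b, Relation.ReflTransGen (fun u v => H.Adj u v ∧ v ∈ E2) a b →
          Relation.ReflTransGen (fun u v => H.Adj u v ∧ v ∈ E) a b := fun a b h => by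
        induction h with
        | refl => exact Relation.ReflTransGen.refl
        | tail _ h ih => exact ih.tail ⟨h.1, s2 h.2⟩
      have toX : ∀ z ∈ E, Relation.ReflTransGen (fun u v => H.Adj u v ∧ v ∈ E) z x ∧
          Relation.ReflTransGen (fun u v => H.Adj u v ∧ v ∈ E) x z := by
        have g1 : ∀ z ∈ E1, Relation.ReflTransGen (fun u v => H.Adj u v ∧ v ∈ E) z x ∧
            Relation.ReflTransGen (fun u v => H.Adj u v ∧ v ∈ E) x z := fun z hz =>
          ⟨(lift1 _ _ (c1.2 z hz u1 (a1 hu1))).tail ⟨x1.symm, xE⟩,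
            Relation.ReflTransGen.head ⟨x1, s1 (a1 hu1)⟩ (lift1 _ _ (c1.2 u1 (a1 hu1) z hz))⟩
        rintro z (rfl | rfl | hz | hz)
        · exact ⟨Relation.ReflTransGen.refl, Relation.ReflTransGen.refl⟩
        · obtain ⟨e1, e2⟩ := g1 v1 (b1 hv1)
          exact ⟨Relation.ReflTransGen.head ⟨y1, s1 (b1 hv1)⟩ e1, e2.tail ⟨y1.symm, yE⟩⟩
        · exact g1 z hz
        · exact ⟨(lift2 _ _ (c2.2 z hz u2 (a2 hu2))).tail ⟨x2.symm, xE⟩,
            Relation.ReflTransGen.head ⟨x2, s2 (a2 hu2)⟩ (lift2 _ _ (c2.2 u2 (a2 hu2) z hz))⟩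
      intro a ha' b hb'
      exact (toX a ha').1.trans (toX b hb').2

theorem dlam_pull {U V : Type} {G : SimpleGraph V} {H : SimpleGraph U} {τ : U → V}
    (hadj : ∀ a b, G.Adj (τ a) (τ b) ↔ H.Adj a b) (hinj : Function.Injective τ) {l : ℕ} :
    ∀ {d : ℕ} {E A B : Set V}, E ⊆ Set.range τ → DLam G l d E A B →
      DLam H l d (τ ⁻¹' E) (τ ⁻¹' A) (τ ⁻¹' B)
  | 0, E, A, B, hE, h => by
    obtain ⟨p, hp, hpadj, rfl, rfl, rfl⟩ := h
    have hq : ∀ i, ∃ a, τ a = p i := fun i => hE (Set.mem_range_self i)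
    choose q hq using hq
    refine ⟨q, ?_, ?_, ?_, ?_, ?_⟩
    · intro i j hij
      apply hp
      rw [← hq i, ← hq j, hij]
    · intro i j
      rw [← hadj, hq i, hq j]
      exact hpadj i j
    · ext a
      constructor
      · rintro ⟨i, hi⟩
        exact ⟨i, hinj ((hq i).trans hi)⟩
      · rintro ⟨i, rfl⟩
        exact ⟨i, (hq i).symm⟩
    · ext a
      constructor
      · intro h
        have h' : τ a = p 0 := h
        exact hinj (h'.trans (hq 0).symm)
      · rintro rfl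
        exact hq 0
    · ext a
      constructor
      · intro h
        have h' : τ a = p (Fin.last l) := h
        exact hinj (h'.trans (hq _).symm)
      · rintro rfl
        exact hq _
  | d + 1, E, A, B, hE, h => by
    obtain ⟨x, y, E1, A1, B1, E2, A2, B2, h1, h2, ha, hx, hy, hxy, hn, hxadj, hyadj, rfl, rfl,
      rfl⟩ := h
    obtain ⟨x', rfl⟩ := hE (Or.inl rfl)
    obtain ⟨y', rfl⟩ := hE (Or.inr (Or.inl rfl))
    have t1 := dlam_pull hadj hinj (fun z hz => hE (Or.inr (Or.inr (Or.inl hz)))) h1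
    have t2 := dlam_pull hadj hinj (fun z hz => hE (Or.inr (Or.inr (Or.inr hz)))) h2
    refine ⟨x', y', _, _, _, _, _, _, t1, t2, anti_pull hadj ha, hx, hy,
      fun h => hxy (congrArg τ h), fun h => hn ((hadj _ _).mpr h), ?_, ?_, ?_, rfl, rfl⟩
    · intro z hz
      rw [← hadj]
      exact hxadj (τ z) hz
    · intro z hz
      rw [← hadj]
      exact hyadj (τ z) hz
    · ext z
      constructor
      · rintro (h | h | h)
        · exact Or.inl (hinj h)
        · exact Or.inr (Or.inl (hinj h))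
        · exact Or.inr (Or.inr h)
      · rintro (rfl | rfl | h)
        · exact Or.inl rfl
        · exact Or.inr (Or.inl rfl)
        · exact Or.inr (Or.inr h)

theorem obs_conn {n d : ℕ} (hn : 0 < n) : ∀ X ∈ Obs n d, Conn X.2 Set.univ := by
  rintro X (rfl | ⟨-, l, A, B, -, h⟩)
  · obtain ⟨n, rfl⟩ : ∃ k, n = k + 1 := ⟨n - 1, by omega⟩
    exact conn_univ (SimpleGraph.pathGraph_connected n)
  · exact (dlam_basic h).2.2.2.2

theorem cl_of_obs {n d k : ℕ} {Y : FG} (h1 : Y.2.Colorable 2) (h2 : ∀ X ∈ Obs n d, ¬ Emb X Y)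
    (h3 : OnlineLE Y k) : Y ∈ H24.Bip.Cl n d k := by
  classical
  refine ⟨h1, ?_, ?_, h3⟩
  · rintro ⟨p, hp, hadj⟩
    refine h2 ⟨n, SimpleGraph.pathGraph n⟩ (Or.inl rfl) ⟨⟨⟨p, hp⟩, ?_⟩⟩
    intro a b
    rw [SimpleGraph.pathGraph_adj]
    exact hadj a b
  · by_cases hn : n ≤ 11
    · exact Or.inl hn
    · right
      intro l E A B hl h
      obtain ⟨e⟩ : Nonempty (Fin (Fintype.card E) ≃ E) := ⟨(Fintype.equivFin E).symm⟩
      let τ : Fin (Fintype.card E) → Fin Y.1 := fun i => (e i).1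
      have hinj : Function.Injective τ := fun i j hij => e.injective (Subtype.ext hij)
      have hr : E ⊆ Set.range τ := fun z hz => ⟨e.symm ⟨z, hz⟩, by simp [τ]⟩
      have hu : τ ⁻¹' E = Set.univ := by
        ext i
        exact ⟨fun _ => Set.mem_univ _, fun _ => (e i).2⟩
      have h4 := dlam_pull (G := Y.2) (H := Y.2.comap τ) (τ := τ) (fun _ _ => Iff.rfl) hinj hr h
      rw [hu] at h4
      exact h2 ⟨Fintype.card E, Y.2.comap τ⟩ (Or.inr ⟨by omega, l, _, _, hl, h4⟩)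
        ⟨⟨⟨τ, hinj⟩, Iff.rfl⟩⟩

theorem handles_sep (hK : Key) (n d m k : ℕ) : ∃ (N : ℕ) (A : ℕ → SimpleGraph ℕ → ℕ), Handles A
    {Y : FG | Y.2.Colorable 2 ∧ ¬ HasUnion Y.2 (fun _ : Fin m => Obs n d) ∧ OnlineLE Y k} N := by
  rcases Nat.eq_zero_or_pos n with rfl | hn
  · refine ⟨0, fun n _ => n, handles_of_uses online_id ?_⟩
    rintro Y ⟨-, h2, -⟩
    exfalso
    apply h2
    exact ⟨fun _ => ⟨0, SimpleGraph.pathGraph 0⟩, fun _ => Or.inl rfl,
      fun _ => ⟨⟨fun a => a.elim0, fun a => a.elim0⟩, fun {a} => a.elim0⟩,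
      fun i j _ => by rintro _ ⟨a, rfl⟩; exact a.elim0⟩
  · refine closure_k _ (fun _ => obs_conn hn) k fun _ => ?_
    obtain ⟨N, A, hA⟩ := handles_cl hK n d k
    exact ⟨N, A, hA.mono (fun Y hY => cl_of_obs hY.1 hY.2.1 hY.2.2)⟩

theorem main_sep (hK : Key) : ∃ A : ℕ → SimpleGraph ℕ → ℕ, IsOnline A ∧
    ∀ n d m : ℕ, ∃ h : ℕ → ℕ, ∀ Y : FG, Y.2.Colorable 2 →
      ¬ HasUnion Y.2 (fun _ : Fin m => Obs n d) → ∀ k : ℕ, OnlineLE Y k →
        UsesAtMost A Y.2 (h k) := by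
  choose N A hA using fun i : ℕ =>
    handles_sep hK (Nat.unpair i).1 (Nat.unpair (Nat.unpair i).2).1
      (Nat.unpair (Nat.unpair (Nat.unpair i).2).2).1 (Nat.unpair (Nat.unpair (Nat.unpair i).2).2).2
  obtain ⟨A', hA1, hA2⟩ := combine hA
  refine ⟨A', hA1, fun n d m =>
    ⟨fun k => ∑ i ∈ Finset.range (Nat.pair n (Nat.pair d (Nat.pair m k)) + 1), N i, ?_⟩⟩
  intro Y h1 h2 k h3
  refine hA2 (Nat.pair n (Nat.pair d (Nat.pair m k))) Y ?_
  have e1 : (Nat.unpair (Nat.pair n (Nat.pair d (Nat.pair m k)))).1 = n := by simp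
  have e2 : (Nat.unpair (Nat.pair n (Nat.pair d (Nat.pair m k)))).2 =
    Nat.pair d (Nat.pair m k) := by simp
  rw [e1, e2]
  have e3 : (Nat.unpair (Nat.pair d (Nat.pair m k))).1 = d := by simp
  have e4 : (Nat.unpair (Nat.pair d (Nat.pair m k))).2 = Nat.pair m k := by simp
  rw [e3, e4]
  have e5 : (Nat.unpair (Nat.pair m k)).1 = m := by simp
  have e6 : (Nat.unpair (Nat.pair m k)).2 = k := by simp
  rw [e5, e6]
  exact ⟨h1, h2, h3⟩

end H24.Cup
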