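import Pool.Agent.H24.Cup.Obs
import Pool.Agent.H24.Cup.Stable7

/-!
Half graphs and crowns as forbidden subgraphs, and the main theorem.
-/

namespace H24.Cup

open H7.Online H24.Bip

theorem connected_of_conn {X : FG} (h : Conn X.2 Set.univ) : X.2.Connected := by
  obtain ⟨⟨x, -⟩, h2⟩ := h
  have : Nonempty (Fin X.1) := ⟨x⟩
  refine ⟨?_⟩
  intro a b
  have h3 := h2 a (Set.mem_univ _) b (Set.mem_univ _)
  rw [SimpleGraph.reachable_iff_reflTransGen]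
  induction h3 with
  | refl => exact Relation.ReflTransGen.refl
  | tail _ h ih => exact ih.tail h.1

theorem sub_fg (Y : FG) (E : Set (Fin Y.1)) (hE : Conn Y.2 E) :
    ∃ (X : FG) (τ : Fin X.1 → Fin Y.1), Function.Injective τ ∧
      (∀ a b, Y.2.Adj (τ a) (τ b) ↔ X.2.Adj a b) ∧ Set.range τ = E ∧ X.2.Connected := by
  classical
  obtain ⟨e⟩ : Nonempty (Fin (Fintype.card E) ≃ E) := ⟨(Fintype.equivFin E).symm⟩
  let τ : Fin (Fintype.card E) → Fin Y.1 := fun i => (e i).1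
  have hinj : Function.Injective τ := fun i j hij => e.injective (Subtype.ext hij)
  have hr : Set.range τ = E := by
    ext z
    constructor
    · rintro ⟨i, rfl⟩
      exact (e i).2
    · intro hz
      exact ⟨e.symm ⟨z, hz⟩, by simp [τ]⟩
  refine ⟨⟨_, Y.2.comap τ⟩, τ, hinj, fun _ _ => Iff.rfl, hr, connected_of_conn ?_⟩
  have h1 := conn_pull (G := Y.2) (H := Y.2.comap τ) (τ := τ) (fun _ _ => Iff.rfl) hinj hr.ge hE
  have hu : τ ⁻¹' E = Set.univ := by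
    ext i
    exact ⟨fun _ => Set.mem_univ _, fun _ => (e i).2⟩
  rwa [hu] at h1

/-- a set in which everything is connected to a vertex -/
theorem conn_of_hub {V : Type} {H : SimpleGraph V} {E : Set V} {x : V} (hx : x ∈ E)
    (h : ∀ z ∈ E, Relation.ReflTransGen (fun u v => H.Adj u v ∧ v ∈ E) x z) : Conn H E := by
  have hrev : ∀ z ∈ E, Relation.ReflTransGen (fun u v => H.Adj u v ∧ v ∈ E) z x := by
    intro z hz
    have h1 := h z hz
    clear hz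
    have key : ∀ z, Relation.ReflTransGen (fun u v => H.Adj u v ∧ v ∈ E) x z →
        z ∈ E ∧ Relation.ReflTransGen (fun u v => H.Adj u v ∧ v ∈ E) z x := by
      intro z hz
      induction hz with
      | refl => exact ⟨hx, Relation.ReflTransGen.refl⟩
      | tail _ h ih => exact ⟨h.2, Relation.ReflTransGen.head ⟨h.1.symm, ih.1⟩ ih.2⟩
    exact (key z h1).2
  exact ⟨⟨x, hx⟩, fun a ha b hb => (hrev a ha).trans (h b hb)⟩

theorem stb_of_half {Y : FG} {t : ℕ} (ht : 3 ≤ t) (h : HasHalfGraph Y.2 t) :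
    ∃ X ∈ Stb t, Emb X Y := by
  obtain ⟨a, b, h1, h2, h3⟩ := h
  set E : Set (Fin Y.1) := Set.range a ∪ Set.range b with hE
  have hta : ∀ i, a i ∈ E := fun i => Or.inl ⟨i, rfl⟩
  have htb : ∀ i, b i ∈ E := fun i => Or.inr ⟨i, rfl⟩
  let i0 : Fin t := ⟨0, by omega⟩
  let il : Fin t := ⟨t - 1, by omega⟩
  have h0 : ∀ i, i0 ≤ i := fun i => Fin.mk_le_of_le_val (Nat.zero_le _)
  have hl : ∀ i : Fin t, i ≤ il := fun i => by
    have := i.2
    show (i : ℕ) ≤ t - 1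
    omega
  have hconn : Conn Y.2 E := by
    refine conn_of_hub (hta i0) ?_
    have hb : ∀ j, Relation.ReflTransGen (fun u v => Y.2.Adj u v ∧ v ∈ E) (a i0) (b j) := fun j =>
      Relation.ReflTransGen.single ⟨(h1 i0 j).mpr (h0 j), htb j⟩
    rintro z (⟨i, rfl⟩ | ⟨j, rfl⟩)
    · exact (hb il).tail ⟨((h1 i il).mpr (hl i)).symm, hta i⟩
    · exact hb j
  obtain ⟨X, τ, e1, e2, e3, e4⟩ := sub_fg Y E hconn
  have ha' : ∀ i, ∃ x, τ x = a i := fun i => by rw [← Set.mem_range, e3]; exact hta i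
  have hb' : ∀ i, ∃ x, τ x = b i := fun i => by rw [← Set.mem_range, e3]; exact htb i
  choose a' ha' using ha'
  choose b' hb' using hb'
  refine ⟨X, ⟨e4, Or.inl ⟨a', b', ?_, ?_, ?_⟩⟩, ⟨⟨⟨τ, e1⟩, fun {x y} => e2 x y⟩⟩⟩
  · intro i j
    rw [← e2, ha', hb']
    exact h1 i j
  · intro i j
    rw [← e2, ha', ha']
    exact h2 i j
  · intro i j
    rw [← e2, hb', hb']
    exact h3 i j

theorem stb_of_crown {Y : FG} {t : ℕ} (ht : 3 ≤ t) (h : HasCrown Y.2 t) :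
    ∃ X ∈ Stb t, Emb X Y := by
  obtain ⟨a, b, h1, h2, h3⟩ := h
  set E : Set (Fin Y.1) := Set.range a ∪ Set.range b with hE
  have hta : ∀ i, a i ∈ E := fun i => Or.inl ⟨i, rfl⟩
  have htb : ∀ i, b i ∈ E := fun i => Or.inr ⟨i, rfl⟩
  let i0 : Fin t := ⟨0, by omega⟩
  have hthird : ∀ i j : Fin t, ∃ k : Fin t, k ≠ i ∧ k ≠ j := by
    intro i j
    by_contra hcon
    push Not at hcon
    have k0 := hcon ⟨0, by omega⟩
    have k1 := hcon ⟨1, by omega⟩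
    have k2 := hcon ⟨2, by omega⟩
    simp only [ne_eq, Fin.ext_iff] at k0 k1 k2
    omega
  have hconn : Conn Y.2 E := by
    have hstep : ∀ i j, i ≠ j → Relation.ReflTransGen (fun u v => Y.2.Adj u v ∧ v ∈ E) (a i) (b j) :=
      fun i j hij => Relation.ReflTransGen.single ⟨(h1 i j).mpr hij, htb j⟩
    have haa : ∀ i j, Relation.ReflTransGen (fun u v => Y.2.Adj u v ∧ v ∈ E) (a i) (a j) := by
      intro i j
      obtain ⟨k, hk1, hk2⟩ := hthird i j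
      exact (hstep i k hk1.symm).tail ⟨((h1 j k).mpr hk2.symm).symm, hta j⟩
    refine conn_of_hub (hta i0) ?_
    rintro z (⟨i, rfl⟩ | ⟨j, rfl⟩)
    · exact haa _ _
    · obtain ⟨k, hk, -⟩ := hthird j j
      exact (haa i0 k).trans (hstep k j hk)
  obtain ⟨X, τ, e1, e2, e3, e4⟩ := sub_fg Y E hconn
  have ha' : ∀ i, ∃ x, τ x = a i := fun i => by rw [← Set.mem_range, e3]; exact hta i
  have hb' : ∀ i, ∃ x, τ x = b i := fun i => by rw [← Set.mem_range, e3]; exact htb i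
  choose a' ha' using ha'
  choose b' hb' using hb'
  refine ⟨X, ⟨e4, Or.inr ⟨a', b', ?_, ?_, ?_⟩⟩, ⟨⟨⟨τ, e1⟩, fun {x y} => e2 x y⟩⟩⟩
  · intro i j
    rw [← e2, ha', hb']
    exact h1 i j
  · intro i j
    rw [← e2, ha', ha']
    exact h2 i j
  · intro i j
    rw [← e2, hb', hb']
    exact h3 i j

theorem Stb_mono {s t : ℕ} (h : s ≤ t) : Stb t ⊆ Stb s := by
  rintro X ⟨h1, h2 | h2⟩
  · exact ⟨h1, Or.inl (h2.mono h)⟩
  · exact ⟨h1, Or.inr (h2.mono h)⟩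

theorem HasUnion.mono {V : Type} {H : SimpleGraph V} {r : ℕ} {F F' : Fin r → Set FG}
    (h : HasUnion H F) (hF : ∀ i, F i ⊆ F' i) : HasUnion H F' := by
  obtain ⟨X, h1, f, h2⟩ := h
  exact ⟨X, fun i => hF i (h1 i), f, h2⟩

/-- `m` families `Obs n d` and `m` families `Stb t` -/
def Fam (n d t m : ℕ) : Fin (m + m) → Set FG := fun i => if (i : ℕ) < m then Obs n d else Stb t

theorem handles_fam (hK : Key) (n d t m k : ℕ) (hn : 0 < n) (ht : 3 ≤ t) :
    ∃ (N : ℕ) (A : ℕ → SimpleGraph ℕ → ℕ), Handles A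
    {Y : FG | Y.2.Colorable 2 ∧ ¬ HasUnion Y.2 (Fam n d t m) ∧ OnlineLE Y k} N := by
  classical
  refine closure_k _ ?_ k ?_
  · intro i X hX
    unfold Fam at hX
    split_ifs at hX
    · exact obs_conn hn X hX
    · exact conn_univ hX.1
  · intro i
    unfold Fam
    by_cases hi : (i : ℕ) < m
    · simp only [if_pos hi]
      obtain ⟨N, A, hA⟩ := handles_cl hK n d k
      exact ⟨N, A, hA.mono (fun Y hY => cl_of_obs hY.1 hY.2.1 hY.2.2)⟩
    · simp only [if_neg hi]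
      obtain ⟨N, hN⟩ := firstFit_stable t k
      refine ⟨N, firstFit, handles_of_uses firstFit_isOnline ?_⟩
      rintro ⟨M, H⟩ ⟨-, hY2, hY3⟩
      refine hN M H ?_ ?_ hY3
      · intro h
        obtain ⟨X, hX, hE⟩ := stb_of_half (Y := ⟨M, H⟩) ht h
        exact hY2 X hX hE
      · intro h
        obtain ⟨X, hX, hE⟩ := stb_of_crown (Y := ⟨M, H⟩) ht h
        exact hY2 X hX hE

theorem handles_fam' (hK : Key) (n d t m k : ℕ) :
    ∃ (N : ℕ) (A : ℕ → SimpleGraph ℕ → ℕ), Handles A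
    {Y : FG | Y.2.Colorable 2 ∧ ¬ HasUnion Y.2 (Fam (n + 1) d t m) ∧ OnlineLE Y k} N := by
  obtain ⟨N, A, hA⟩ := handles_fam hK (n + 1) d (max t 3) m k (by omega) (le_max_right _ _)
  refine ⟨N, A, hA.mono ?_⟩
  rintro Y ⟨h1, h2, h3⟩
  refine ⟨h1, fun h => h2 (h.mono fun i => ?_), h3⟩
  unfold Fam
  split_ifs
  · exact subset_rfl
  · exact Stb_mono (le_max_left _ _)

theorem main_fam (hK : Key) : ∃ A : ℕ → SimpleGraph ℕ → ℕ, IsOnline A ∧
    ∀ n d t m : ℕ, ∃ h : ℕ → ℕ, ∀ Y : FG, Y.2.Colorable 2 →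
      ¬ HasUnion Y.2 (Fam (n + 1) d t m) → ∀ k : ℕ, OnlineLE Y k →
        UsesAtMost A Y.2 (h k) := by
  let e : ℕ ≃ ℕ × ℕ × ℕ × ℕ × ℕ := (Denumerable.eqv (ℕ × ℕ × ℕ × ℕ × ℕ)).symm
  choose N A hA using fun x : ℕ × ℕ × ℕ × ℕ × ℕ =>
    handles_fam' hK x.1 x.2.1 x.2.2.1 x.2.2.2.1 x.2.2.2.2
  obtain ⟨A', hA1, hA2⟩ := combine (fun i : ℕ => hA (e i))
  refine ⟨A', hA1, fun n d t m =>
    ⟨fun k => ∑ i ∈ Finset.range (e.symm (n, d, t, m, k) + 1), N (e i), ?_⟩⟩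
  intro Y h1 h2 k h3
  refine hA2 (e.symm (n, d, t, m, k)) Y ?_
  rw [Equiv.apply_symm_apply]
  exact ⟨h1, h2, h3⟩

end H24.Cup
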