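import Pool.Agent.H7.Online.Wqo

/-!
On-line algorithms for a part of the presented graph, and their combination.
-/

namespace H24.Cup

open H7.Online

/-- the graphs agree up to time `n` -/
def Ag (G G' : SimpleGraph ℕ) (n : ℕ) : Prop :=
  ∀ i j : ℕ, i ≤ n → j ≤ n → (G.Adj i j ↔ G'.Adj i j)

theorem Ag.symm {G G' : SimpleGraph ℕ} {n : ℕ} (h : Ag G G' n) : Ag G' G n :=
  fun i j hi hj => (h i j hi hj).symm

theorem Ag.le {G G' : SimpleGraph ℕ} {n m : ℕ} (h : Ag G G' n) (hm : m ≤ n) : Ag G G' m :=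
  fun i j hi hj => h i j (hi.trans hm) (hj.trans hm)

/-- a partial algorithm, for the vertices with property `S` -/
structure PA (S : SimpleGraph ℕ → ℕ → Prop) (A : ℕ → SimpleGraph ℕ → ℕ) : Prop where
  locS : ∀ n G G', Ag G G' n → S G n → S G' n
  locA : ∀ n G G', Ag G G' n → S G n → A n G = A n G'
  prp : ∀ G i j, i < j → S G i → S G j → G.Adj i j → A i G ≠ A j G

open Classical in
/-- at most `N` colours are used on the presented graphs which embed in a member of `Z` -/
def BPA (S : SimpleGraph ℕ → ℕ → Prop) (A : ℕ → SimpleGraph ℕ → ℕ) (Z : Set FG) (N : ℕ) : Prop :=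
  ∀ (G : SimpleGraph ℕ) (m : ℕ), ∀ Y ∈ Z, Init G m Y →
    (((Finset.range m).filter (fun v => S G v)).image (fun v => A v G)).card ≤ N

theorem pa_union {S S1 S2 : SimpleGraph ℕ → ℕ → Prop} {A1 A2 : ℕ → SimpleGraph ℕ → ℕ}
    {Z : Set FG} {N1 N2 : ℕ} (hS : ∀ G v, S G v ↔ (S1 G v ∨ S2 G v)) (h1 : PA S1 A1)
    (h2 : PA S2 A2) (b1 : BPA S1 A1 Z N1) (b2 : BPA S2 A2 Z N2) :
    ∃ A, PA S A ∧ BPA S A Z (N1 + N2) := by
  classical
  let A : ℕ → SimpleGraph ℕ → ℕ := fun v G => if S1 G v then 2 * A1 v G else 2 * A2 v G + 1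
  have e1 : ∀ v G, S1 G v → A v G = 2 * A1 v G := fun v G h => by simp only [A, if_pos h]
  have e2 : ∀ v G, ¬ S1 G v → A v G = 2 * A2 v G + 1 := fun v G h => by simp only [A, if_neg h]
  refine ⟨A, ⟨?_, ?_, ?_⟩, ?_⟩
  · intro n G G' hG h
    rcases (hS G n).mp h with h | h
    · exact (hS G' n).mpr (Or.inl (h1.locS n G G' hG h))
    · exact (hS G' n).mpr (Or.inr (h2.locS n G G' hG h))
  · intro n G G' hG h
    rw [hS] at h
    by_cases hS : S1 G n
    · rw [e1 n G hS, e1 n G' (h1.locS n G G' hG hS), h1.locA n G G' hG hS]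
    · have hS' : ¬ S1 G' n := fun h' => hS (h1.locS n G' G hG.symm h')
      rw [e2 n G hS, e2 n G' hS', h2.locA n G G' hG (h.resolve_left hS)]
  · intro G i j hij hi hj hadj
    rw [hS] at hi hj
    by_cases hSi : S1 G i
    · by_cases hSj : S1 G j
      · rw [e1 i G hSi, e1 j G hSj]
        have := h1.prp G i j hij hSi hSj hadj
        omega
      · rw [e1 i G hSi, e2 j G hSj]
        omega
    · by_cases hSj : S1 G j
      · rw [e2 i G hSi, e1 j G hSj]
        omega
      · rw [e2 i G hSi, e2 j G hSj]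
        have := h2.prp G i j hij (hi.resolve_left hSi) (hj.resolve_left hSj) hadj
        omega
  · intro G m Y hY hI
    have hsub : (((Finset.range m).filter (fun v => S G v)).image (fun v => A v G)) ⊆
        ((((Finset.range m).filter (fun v => S1 G v)).image (fun v => A1 v G)).image
            (fun c => 2 * c)) ∪
          ((((Finset.range m).filter (fun v => S2 G v)).image (fun v => A2 v G)).image
            (fun c => 2 * c + 1)) := by
      intro x hx
      rw [Finset.mem_image] at hx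
      obtain ⟨i, hi, rfl⟩ := hx
      rw [Finset.mem_filter, hS] at hi
      rw [Finset.mem_union]
      by_cases hS : S1 G i
      · left
        rw [Finset.mem_image]
        exact ⟨A1 i G, Finset.mem_image.mpr ⟨i, Finset.mem_filter.mpr ⟨hi.1, hS⟩, rfl⟩,
          (e1 i G hS).symm⟩
      · right
        rw [Finset.mem_image]
        exact ⟨A2 i G, Finset.mem_image.mpr ⟨i, Finset.mem_filter.mpr
          ⟨hi.1, hi.2.resolve_left hS⟩, rfl⟩, (e2 i G hS).symm⟩
    calc _ ≤ _ := Finset.card_le_card hsub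
      _ ≤ _ := Finset.card_union_le _ _
      _ ≤ N1 + N2 := add_le_add (le_trans Finset.card_image_le (b1 G m Y hY hI))
          (le_trans Finset.card_image_le (b2 G m Y hY hI))

/-! ### running an algorithm on a part of the graph -/

section sub
variable {p q : ℕ → Prop} [DecidablePred p] [DecidablePred q]

theorem count_agree {n : ℕ} (h : ∀ i < n, (p i ↔ q i)) : Nat.count p n = Nat.count q n := by
  apply le_antisymm
  · exact Nat.count_mono_left (fun k hk => (h k hk).mp)
  · exact Nat.count_mono_left (fun k hk => (h k hk).mpr)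

theorem nth_spec_le {n i : ℕ} (hn : p n) (hi : i ≤ Nat.count p n) :
    Nat.nth p i ≤ n ∧ p (Nat.nth p i) ∧ Nat.count p (Nat.nth p i) = i := by
  rcases hi.eq_or_lt with h | h
  · subst h
    rw [Nat.nth_count hn]
    exact ⟨le_rfl, hn, rfl⟩
  · have hf : ∀ hf : (Set.ofPred p).Finite, i < hf.toFinset.card :=
      fun hf => h.trans_le (Nat.count_le_card hf n)
    exact ⟨(Nat.nth_lt_of_lt_count h).le, Nat.nth_mem i hf, Nat.count_nth hf⟩

theorem nth_spec_lt {n i : ℕ} (hi : i < Nat.count p n) :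
    Nat.nth p i < n ∧ p (Nat.nth p i) ∧ Nat.count p (Nat.nth p i) = i := by
  have hf : ∀ hf : (Set.ofPred p).Finite, i < hf.toFinset.card :=
    fun hf => hi.trans_le (Nat.count_le_card hf n)
  exact ⟨Nat.nth_lt_of_lt_count hi, Nat.nth_mem i hf, Nat.count_nth hf⟩

theorem nth_agree {n i : ℕ} (hn : p n) (h : ∀ j ≤ n, (p j ↔ q j)) (hi : i ≤ Nat.count p n) :
    Nat.nth p i = Nat.nth q i := by
  obtain ⟨h1, h2, h3⟩ := nth_spec_le hn hi
  have h4 : Nat.count q (Nat.nth p i) = i := by
    rw [← count_agree (p := p) (q := q) (fun j hj => h j (hj.le.trans h1)), h3]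
  have h5 := Nat.nth_count ((h _ h1).mp h2)
  rw [h4] at h5
  exact h5.symm

end sub

theorem pa_sub {S : SimpleGraph ℕ → ℕ → Prop} (hS : ∀ n G G', Ag G G' n → S G n → S G' n)
    {A : ℕ → SimpleGraph ℕ → ℕ} {D Z : Set FG} {N : ℕ} (hA : Handles A D N)
    (hD : ∀ (G : SimpleGraph ℕ) (m : ℕ), ∀ Y ∈ Z, Init G m Y → ∀ (c : ℕ) (f : Fin c → ℕ),
      Function.Injective f → (∀ i, f i < m ∧ S G (f i)) → (⟨c, G.comap f⟩ : FG) ∈ D) :
    ∃ A', PA S A' ∧ BPA S A' Z N := by
  classical
  have hS2 : ∀ n G G', Ag G G' n → ∀ i ≤ n, (S G i ↔ S G' i) := fun n G G' h i hi =>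
    ⟨hS i G G' (h.le hi), hS i G' G (h.le hi).symm⟩
  refine ⟨fun v G => A (Nat.count (S G) v) (G.comap (Nat.nth (S G))), ⟨hS, ?_, ?_⟩, ?_⟩
  · intro n G G' h hn
    have h1 := hS2 n G G' h
    have hc : Nat.count (S G) n = Nat.count (S G') n := count_agree (fun i hi => h1 i hi.le)
    rw [← hc]
    apply hA.1.1
    intro i j hi hj
    simp only [SimpleGraph.comap_adj]
    rw [← nth_agree hn h1 hi, ← nth_agree hn h1 hj]
    exact h _ _ (nth_spec_le hn hi).1 (nth_spec_le hn hj).1
  · intro G i j hij hi hj hadj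
    apply hA.1.2
    · exact Nat.count_strict_mono hi hij
    · simp only [SimpleGraph.comap_adj]
      rw [Nat.nth_count hi, Nat.nth_count hj]
      exact hadj
  · intro G m Y hY hI
    let f : Fin (Nat.count (S G) m) → ℕ := fun i => Nat.nth (S G) i
    have hf : ∀ i, f i < m ∧ S G (f i) ∧ Nat.count (S G) (f i) = i := fun i => nth_spec_lt i.2
    have hfi : Function.Injective f := by
      intro i j hij
      have h1 := (hf i).2.2
      rw [hij, (hf j).2.2] at h1
      exact (Fin.ext h1).symm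
    have hmem := hD G m Y hY hI _ f hfi (fun i => ⟨(hf i).1, (hf i).2.1⟩)
    have hI2 : Init (G.comap (Nat.nth (S G))) (Nat.count (S G) m)
        (⟨Nat.count (S G) m, G.comap f⟩ : FG) :=
      ⟨id, Function.injective_id, fun i j => Iff.rfl⟩
    refine le_trans (Finset.card_le_card ?_) (hA.2 _ _ _ hmem hI2)
    intro x hx
    rw [Finset.mem_image] at hx ⊢
    obtain ⟨v, hv, rfl⟩ := hx
    rw [Finset.mem_filter, Finset.mem_range] at hv
    exact ⟨Nat.count (S G) v, Finset.mem_range.mpr (Nat.count_strict_mono hv.2 hv.1), rfl⟩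

/-- the empty part -/
theorem pa_empty {S : SimpleGraph ℕ → ℕ → Prop} (hS : ∀ G v, ¬ S G v) (Z : Set FG) :
    PA S (fun _ _ => 0) ∧ BPA S (fun _ _ => 0) Z 0 := by
  classical
  refine ⟨⟨fun n G _ _ h => absurd h (hS G n), fun _ _ _ _ _ => rfl,
    fun G i _ _ h => absurd h (hS G i)⟩, ?_⟩
  intro G m Y _ _
  rw [Finset.filter_false_of_mem (fun v _ => hS G v)]
  simp

/-- a partial algorithm for all the vertices -/
theorem pa_total {S : SimpleGraph ℕ → ℕ → Prop} (hS : ∀ G v, S G v) {A : ℕ → SimpleGraph ℕ → ℕ}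
    {Z : Set FG} {N : ℕ} (h : PA S A) (hb : BPA S A Z N) : Handles A Z N := by
  classical
  refine ⟨⟨fun n G G' hG => h.locA n G G' hG (hS G n), fun G i j hij hadj =>
    h.prp G i j hij (hS G i) (hS G j) hadj⟩, ?_⟩
  intro G n Y hY hI
  have := hb G n Y hY hI
  rwa [Finset.filter_true_of_mem (fun v _ => hS G v)] at this

end H24.Cup
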