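import Pool.Agent.H7.Online.LemN

/-!
Long induced increasing paths of levels, and induced complete trees (a copy of
`Pool/Agent/H7/Online/Tree.lean` with `chainT` for the name which is also used in
`Pool/Agent/H7/Online/Rank.lean`).
-/

namespace H7.Online

variable {V : Type} {H : SimpleGraph V} {n D T : ℕ}

/-- positions of the main chainT -/
def M (D x : ℕ) : ℕ := (D + 1 - x) * (D + 1)

theorem M_lt {D x y : ℕ} (h : x < y) (hy : y ≤ D + 1) : M D y + (D + 1) ≤ M D x := by
  unfold M
  have : (D + 1 - y + 1) * (D + 1) ≤ (D + 1 - x) * (D + 1) := Nat.mul_le_mul_right _ (by omega)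
  linarith [Nat.succ_mul (D + 1 - y) (D + 1)]

/-- the main chainT -/
def chainT (D : ℕ) : ℕ → List ℕ
  | 0 => []
  | x + 1 => M D (x + 1) :: chainT D x

theorem length_chainT (D x : ℕ) : (chainT D x).length = x := by
  induction x with
  | zero => rfl
  | succ x ih => simp [chainT, ih]

theorem seg_chainT {n D : ℕ} (hn : (D + 1) * (D + 1) ≤ n) : ∀ x, x ≤ D →
    Seg (M D x) n (chainT D x) := by
  intro x
  induction x with
  | zero => intro _; exact le_trans (by simp [M]) hn
  | succ x ih =>
    intro hx
    have h := M_lt (D := D) (show x < x + 1 by omega) (by omega)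
    exact Seg.cons le_rfl ((ih (by omega)).mono (by omega) le_rfl)

theorem chainT_decomp {D : ℕ} : ∀ d x, x + d + 1 ≤ D → ∃ A, chainT D (x + d + 1) = A ++ chainT D x ∧
    A.length = d + 1 ∧ Seg (M D (x + d + 1)) (M D (x + 1) + 1) A := by
  intro d
  induction d with
  | zero =>
    intro x hx
    refine ⟨[M D (x + 1)], rfl, rfl, ?_⟩
    simp [Seg]
  | succ d ih =>
    intro x hx
    obtain ⟨A, h1, h2, h3⟩ := ih x (by omega)
    refine ⟨M D (x + d + 1 + 1) :: A, ?_, by simp [h2], ?_⟩
    · rw [List.cons_append, ← h1]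
      rfl
    · have h := M_lt (D := D) (show x + d + 1 < x + d + 1 + 1 by omega) (by omega)
      exact Seg.cons le_rfl (h3.mono (by omega) le_rfl)

theorem Hom.chainT_adj (𝓗 : Hom H n D) (hn : (D + 1) * (D + 1) ≤ n) {x y : ℕ} (hxy : x < y)
    (hy : y ≤ D) : H.Adj (𝓗.c (chainT D x)) (𝓗.c (chainT D y)) ↔ 𝓗.P 0 (y - x) x := by
  obtain ⟨d, rfl⟩ : ∃ d, y = x + d + 1 := ⟨y - x - 1, by omega⟩
  obtain ⟨A, h1, h2, h3⟩ := chainT_decomp (D := D) d x hy
  have h4 := M_lt (D := D) (show x < x + 1 by omega) (by omega)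
  have h := 𝓗.adj_iff (m0 := M D (x + d + 1)) (α := []) (β := A) (ρ := chainT D x)
    (m1 := M D (x + d + 1)) (m2 := M D (x + 1) + 1) le_rfl h3
    ((seg_chainT hn x (by omega)).mono (by omega) le_rfl) (by
      simp [h2, length_chainT]; omega)
  rw [List.nil_append, ← h1, h2, length_chainT, List.length_nil] at h
  rw [h, show x + d + 1 - x = d + 1 by omega]

theorem Hom.no_clique_levels (𝓗 : Hom H n D) (hn' : (D + 1) * (D + 1) ≤ n)
    (hK : ¬ HasClique H T) (z : ℕ → ℕ) (h1 : ∀ a b, a < b → b < T → z a < z b)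
    (h2 : ∀ a < T, z a ≤ D)
    (h3 : ∀ a b, a < b → b < T → 𝓗.P 0 (z b - z a) (z a)) : False := by
  apply hK
  refine hasClique_of (fun k => 𝓗.c (chainT D (z k))) ?_
  intro k l hkl hl
  exact (𝓗.chainT_adj hn' (h1 k l hkl hl) (h2 l hl)).mpr (h3 k l hkl hl)

theorem Hom.no_ladder (𝓗 : Hom H n D) (hn : (T + 2) * (2 * D) + 1 ≤ n)
    (hn' : (D + 1) * (D + 1) ≤ n) (hK : ¬ HasClique H T)
    (hH : ¬ HasHalfGraph H T) (hC : ¬ HasCrown H T) (x y : ℕ → ℕ)
    (h1 : ∀ a b, a < b → b < T → x a < x b) (h2 : ∀ a < T, x a < y a)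
    (h3 : ∀ a < T, y a ≤ D) (h4 : ∀ a b, a ≤ b → b < T → 𝓗.P 0 (y b - x a) (x a))
    (h5 : ∀ a b, a < b → b < T → ¬ 𝓗.P 0 (x b - x a) (x a)) : False := by
  apply hH
  -- the off blocks
  have hoff : ∀ k, k < T → Seg (M D (x k + 1) + 1) (M D (x k))
      (List.range' (M D (x k + 1) + 1) (y k - x k)) := by
    intro k hk
    have e1 := h2 k hk
    have e2 := h3 k hk
    have e3 := M_lt (D := D) (show x k < x k + 1 by omega) (by omega)
    exact seg_range'_of le_rfl (by omega)
  have hxD : ∀ k, k < T → x k < D := fun k hk => lt_of_lt_of_le (h2 k hk) (h3 k hk)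
  refine hasHalf_of (fun k => 𝓗.c (chainT D (x k)))
    (fun k => 𝓗.c (List.range' (M D (x k + 1) + 1) (y k - x k) ++ chainT D (x k))) ?_ ?_ ?_ ?_
  · intro k l hk hl hkl
    rcases Nat.eq_or_lt_of_le hkl with h | h
    · subst h
      have h := 𝓗.adj_iff (m0 := M D (x k + 1) + 1) (m1 := M D (x k + 1) + 1) (m2 := M D (x k))
        (α := []) (β := List.range' (M D (x k + 1) + 1) (y k - x k)) (ρ := chainT D (x k))
        le_rfl (hoff k hk) (seg_chainT hn' _ (hxD k hk).le) (by
          have := h3 k hk
          have := h2 k hk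
          simp [length_chainT]; omega)
      rw [List.nil_append, List.length_range', length_chainT, List.length_nil] at h
      exact h.mpr (h4 k k le_rfl hk)
    · have hx := h1 k l h hl
      obtain ⟨d, hd⟩ : ∃ d, x l = x k + d + 1 := ⟨x l - x k - 1, by omega⟩
      have hxl := hxD l hl
      obtain ⟨A, a1, a2, a3⟩ := chainT_decomp (D := D) d (x k) (by omega)
      rw [← hd] at a1 a3
      have e3 := M_lt (D := D) (show x k < x k + 1 by omega) (by omega)
      have h := 𝓗.adj_iff (m0 := M D (x l + 1) + 1) (m1 := M D (x l + 1) + 1)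
        (m2 := M D (x k + 1) + 1)
        (α := []) (β := List.range' (M D (x l + 1) + 1) (y l - x l) ++ A) (ρ := chainT D (x k))
        le_rfl ((hoff l hl).append a3) ((seg_chainT hn' _ (hxD k hk).le).mono (by omega) le_rfl) (by
          have := h3 l hl
          have := h2 l hl
          simp [length_chainT, a2]; omega)
      rw [List.nil_append, List.length_append, List.length_range', length_chainT, List.length_nil,
        a2, List.append_assoc, ← a1, show y l - x l + (d + 1) = y l - x k by
          have := h2 l hl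
          omega] at h
      exact h.mpr (h4 k l hkl hl)
  · intro k l hk hl hlk
    have hx := h1 l k hlk hk
    obtain ⟨d, hd⟩ : ∃ d, x k = x l + d + 1 := ⟨x k - x l - 1, by omega⟩
    have hxk := hxD k hk
    obtain ⟨A, a1, a2, a3⟩ := chainT_decomp (D := D) d (x l) (by omega)
    rw [← hd] at a1 a3
    rw [a1]
    have e1 := h2 l hl
    have e2 := h3 l hl
    exact 𝓗.not_adj hn hK hH hC a3 (hoff l hl) (seg_chainT hn' _ (hxD l hl).le)
      (by omega) (by rw [List.length_range']; omega) (by rw [length_chainT]; omega)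
      (by rw [List.length_range', length_chainT]; omega)
  · intro k l hkl hl hadj
    exact h5 k l hkl hl ((𝓗.chainT_adj hn' (h1 k l hkl hl) (hxD l hl).le).mp hadj)
  · intro k l hkl hl hadj
    have hx := h1 k l hkl hl
    obtain ⟨d, hd⟩ : ∃ d, x l = x k + d + 1 := ⟨x l - x k - 1, by omega⟩
    have hxl := hxD l hl
    obtain ⟨A, a1, a2, a3⟩ := chainT_decomp (D := D) d (x k) (by omega)
    rw [← hd] at a1 a3
    rw [a1, ← List.append_assoc] at hadj
    have e1 := h2 k (by omega)
    have e2 := h3 k (by omega)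
    have e3 := h2 l hl
    have e4 := h3 l hl
    exact 𝓗.not_adj hn hK hH hC ((hoff l hl).append a3) (hoff k (by omega))
      (seg_chainT hn' _ (hxD k (by omega)).le)
      (by rw [List.length_append]; omega) (by rw [List.length_range']; omega)
      (by rw [List.length_append, length_chainT, List.length_range']; omega)
      (by rw [List.length_range', length_chainT]; omega) hadj.symm

/-! ### the tree -/

/-- room for the descendants of a node with `e` remaining levels below it -/
def Ar (D K : ℕ) : ℕ → ℕ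
  | 0 => 0
  | e + 1 => K * (Ar D K e + D)

/-- bottom of the region of a node -/
def bot (D K R : ℕ) : List ℕ → ℕ
  | [] => 0
  | j :: w => bot D K R w + j * (Ar D K (R - (w.length + 1)) + D)

/-- the index list of a node -/
def lst (D K R : ℕ) (x : ℕ → ℕ) : List ℕ → List ℕ
  | [] => List.range' (Ar D K R) (x 0)
  | j :: w => List.range' (bot D K R (j :: w) + Ar D K (R - (w.length + 1)))
      (x (w.length + 1) - x w.length) ++ lst D K R x w

/-- nodes of the tree: lists with entries `< K` and length `≤ R` -/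
def Node (K R : ℕ) (w : List ℕ) : Prop := w.length ≤ R ∧ ∀ j ∈ w, j < K

theorem Node.tail {K R : ℕ} {j : ℕ} {w : List ℕ} (h : Node K R (j :: w)) : Node K R w :=
  ⟨by have := h.1; simp at this; omega, fun i hi => h.2 i (by simp [hi])⟩

theorem Node.of_append {K R : ℕ} {u w : List ℕ} (h : Node K R (u ++ w)) : Node K R w :=
  ⟨by have := h.1; simp at this; omega, fun i hi => h.2 i (by simp [hi])⟩

theorem bot_step {D K R j : ℕ} {w : List ℕ} (h : Node K R (j :: w)) :
    bot D K R (j :: w) + Ar D K (R - (w.length + 1)) + D ≤ bot D K R w + Ar D K (R - w.length) := by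
  have h1 := h.1
  simp only [List.length_cons] at h1
  have h2 := h.2 j (by simp)
  rw [show R - w.length = (R - (w.length + 1)) + 1 by omega]
  simp only [bot, Ar]
  have : (j + 1) * (Ar D K (R - (w.length + 1)) + D) ≤ K * (Ar D K (R - (w.length + 1)) + D) :=
    Nat.mul_le_mul_right _ h2
  linarith [Nat.succ_mul j (Ar D K (R - (w.length + 1)) + D)]

theorem seg_lst {n D K R : ℕ} {x : ℕ → ℕ} (hn : Ar D K R + D ≤ n) (hx : ∀ a ≤ R, x a ≤ D) :
    ∀ w, Node K R w → Seg (bot D K R w + Ar D K (R - w.length)) n (lst D K R x w) := by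
  intro w
  induction w with
  | nil =>
    intro _
    have := hx 0 (Nat.zero_le _)
    simp only [bot, lst, List.length_nil, Nat.zero_add, Nat.sub_zero]
    exact seg_range'_of le_rfl (by omega)
  | cons j w ih =>
    intro h
    have h1 := bot_step (D := D) h
    have h2 := ih h.tail
    have h3 := hx (w.length + 1) (by have := h.1; simpa using this)
    simp only [lst, List.length_cons]
    exact Seg.append (seg_range'_of le_rfl (by omega)) h2

theorem length_lst {D K R : ℕ} {x : ℕ → ℕ} (hx : ∀ a b, a < b → b ≤ R → x a < x b) :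
    ∀ w : List ℕ, w.length ≤ R → (lst D K R x w).length = x w.length := by
  intro w
  induction w with
  | nil => intro _; simp [lst]
  | cons j w ih =>
    intro h
    simp only [List.length_cons] at h
    have h1 := hx w.length (w.length + 1) (by omega) h
    simp only [lst, List.length_append, List.length_range', List.length_cons, ih (by omega)]
    omega

theorem lst_decomp {D K R : ℕ} {x : ℕ → ℕ} (hx : ∀ a b, a < b → b ≤ R → x a < x b)
    (hxD : ∀ a ≤ R, x a ≤ D) (j : ℕ) (w : List ℕ) : ∀ u, Node K R (u ++ j :: w) →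
    ∃ A, lst D K R x (u ++ j :: w) = A ++ lst D K R x w ∧
      A.length = x (u ++ j :: w).length - x w.length ∧
      Seg (bot D K R (u ++ j :: w) + Ar D K (R - (u ++ j :: w).length))
        (bot D K R (j :: w) + Ar D K (R - (w.length + 1)) + D) A ∧
      bot D K R (j :: w) ≤ bot D K R (u ++ j :: w) := by
  intro u
  induction u with
  | nil =>
    intro h
    have h3 := hxD (w.length + 1) (by have := h.1; simpa using this)
    refine ⟨_, rfl, by simp, ?_, le_rfl⟩
    exact seg_range'_of le_rfl (by omega)
  | cons i u ih =>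
    intro h
    obtain ⟨A, h1, h2, h3, h4⟩ := ih h.tail
    have hR := h.1
    simp only [List.cons_append, List.length_cons] at hR
    have h5 := bot_step (D := D) (w := u ++ j :: w) h
    have h6 := hxD ((u ++ j :: w).length + 1) hR
    have h7 := hx w.length (u ++ j :: w).length (by simp; omega) (by omega)
    have h8 := hx (u ++ j :: w).length ((u ++ j :: w).length + 1) (by omega) hR
    refine ⟨List.range' (bot D K R (i :: (u ++ j :: w)) +
      Ar D K (R - ((u ++ j :: w).length + 1)))
      (x ((u ++ j :: w).length + 1) - x (u ++ j :: w).length) ++ A, ?_, ?_, ?_, ?_⟩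
    · rw [List.append_assoc, ← h1]
      rfl
    · rw [List.length_append, h2, List.length_range', List.cons_append, List.length_cons]
      omega
    · rw [List.cons_append, List.length_cons]
      exact Seg.append (seg_range'_of le_rfl (by omega)) h3
    · refine h4.trans ?_
      simp only [List.cons_append, bot]
      omega

/-- comparison of two lists from the right -/
theorem suffix_cases (v w : List ℕ) : v = w ∨ (∃ u j, v = u ++ j :: w) ∨ (∃ u j, w = u ++ j :: v) ∨
    ∃ u u' i j z, i ≠ j ∧ v = u ++ i :: z ∧ w = u' ++ j :: z := by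
  have key : ∀ a b : List ℕ, a = b ∨ (∃ j u, a = b ++ j :: u) ∨ (∃ j u, b = a ++ j :: u) ∨
      ∃ z i j u u', i ≠ j ∧ a = z ++ i :: u ∧ b = z ++ j :: u' := by
    intro a
    induction a with
    | nil =>
      intro b
      cases b with
      | nil => left; rfl
      | cons j b => right; right; left; exact ⟨j, b, rfl⟩
    | cons i a ih =>
      intro b
      cases b with
      | nil => right; left; exact ⟨i, a, rfl⟩
      | cons j b =>
        by_cases hij : i = j
        · subst hij
          rcases ih b with h | ⟨j, u, h⟩ | ⟨j, u, h⟩ | ⟨z, i', j', u, u', h1, h2, h3⟩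
          · left; rw [h]
          · right; left; exact ⟨j, u, by rw [h]; rfl⟩
          · right; right; left; exact ⟨j, u, by rw [h]; rfl⟩
          · right; right; right; exact ⟨i :: z, i', j', u, u', h1, by rw [h2]; rfl, by rw [h3]; rfl⟩
        · right; right; right
          exact ⟨[], i, j, a, b, hij, rfl, rfl⟩
  rcases key v.reverse w.reverse with h | ⟨j, u, h⟩ | ⟨j, u, h⟩ | ⟨z, i, j, u, u', h1, h2, h3⟩
  · left; exact List.reverse_injective h
  · right; left
    refine ⟨u.reverse, j, ?_⟩
    have := congrArg List.reverse h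
    simpa using this
  · right; right; left
    refine ⟨u.reverse, j, ?_⟩
    have := congrArg List.reverse h
    simpa using this
  · right; right; right
    refine ⟨u.reverse, u'.reverse, i, j, z.reverse, h1, ?_, ?_⟩
    · have := congrArg List.reverse h2
      simpa using this
    · have := congrArg List.reverse h3
      simpa using this

theorem Hom.tree_desc (𝓗 : Hom H n D) {K R : ℕ} {x : ℕ → ℕ}
    (hn3 : Ar D K R + D ≤ n)
    (hx : ∀ a b, a < b → b ≤ R → x a < x b) (hxD : ∀ a ≤ R, x a ≤ D)
    (hE : ∀ a b, a < b → b ≤ R → (𝓗.P 0 (x b - x a) (x a) ↔ b = a + 1))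
    {u w : List ℕ} {j : ℕ} (h : Node K R (u ++ j :: w)) :
    H.Adj (𝓗.c (lst D K R x w)) (𝓗.c (lst D K R x (u ++ j :: w))) ↔ u = [] := by
  obtain ⟨A, h1, h2, h3, h4⟩ := lst_decomp hx hxD j w u h
  have hR := h.1
  have hlen : w.length < (u ++ j :: w).length := by simp; omega
  have h5 := bot_step (D := D) h.of_append
  have h6 := seg_lst hn3 hxD w (h.of_append).tail
  have h7 := hx _ _ hlen hR
  have h8 := hxD _ hR
  have h := 𝓗.adj_iff (m0 := bot D K R (u ++ j :: w) + Ar D K (R - (u ++ j :: w).length))
    (m1 := bot D K R (u ++ j :: w) + Ar D K (R - (u ++ j :: w).length))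
    (α := []) (β := A) (ρ := lst D K R x w) le_rfl h3 (h6.mono (by omega) le_rfl) (by
      rw [length_lst hx _ (by omega)]
      simp only [List.length_nil]
      omega)
  rw [List.nil_append, ← h1, h2, length_lst hx _ (by omega), List.length_nil, hE _ _ hlen hR] at h
  rw [h]
  constructor
  · intro h9
    rw [List.length_append, List.length_cons] at h9
    exact List.length_eq_zero_iff.mp (by omega)
  · rintro rfl
    simp

theorem Hom.tree_inc (𝓗 : Hom H n D) (hn : (T + 2) * (2 * D) + 1 ≤ n)
    (hK : ¬ HasClique H T) (hH : ¬ HasHalfGraph H T) (hC : ¬ HasCrown H T) {K R : ℕ}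
    {x : ℕ → ℕ} (hn3 : Ar D K R + D ≤ n)
    (hx : ∀ a b, a < b → b ≤ R → x a < x b) (hxD : ∀ a ≤ R, x a ≤ D)
    {u u' z : List ℕ} {i j : ℕ} (hij : i < j) (h : Node K R (u ++ i :: z))
    (h' : Node K R (u' ++ j :: z)) :
    ¬ H.Adj (𝓗.c (lst D K R x (u ++ i :: z))) (𝓗.c (lst D K R x (u' ++ j :: z))) := by
  obtain ⟨A, a1, a2, a3, a4⟩ := lst_decomp hx hxD i z u h
  obtain ⟨B, b1, b2, b3, b4⟩ := lst_decomp hx hxD j z u' h'
  have hR := h.1
  have hR' := h'.1
  have hlen : z.length < (u ++ i :: z).length := by simp; omega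
  have hlen' : z.length < (u' ++ j :: z).length := by simp; omega
  have c1 := hx _ _ hlen hR
  have c2 := hx _ _ hlen' hR'
  have c3 := hxD _ hR
  have c4 := hxD _ hR'
  have c5 := bot_step (D := D) h'.of_append
  have c6 := seg_lst hn3 hxD z (h.of_append).tail
  have c7 : bot D K R (i :: z) + Ar D K (R - (z.length + 1)) + D ≤ bot D K R (j :: z) := by
    simp only [bot]
    have : (i + 1) * (Ar D K (R - (z.length + 1)) + D) ≤ j * (Ar D K (R - (z.length + 1)) + D) :=
      Nat.mul_le_mul_right _ hij
    linarith [Nat.succ_mul i (Ar D K (R - (z.length + 1)) + D)]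
  have c8 := length_lst (D := D) (K := K) hx z (by omega)
  rw [a1, b1]
  refine 𝓗.not_adj hn hK hH hC a3 (b3.mono (c7.trans ?_) le_rfl) (c6.mono (by omega) le_rfl)
    (by omega) (by omega) (by omega) (by omega)
  omega

/-- A Grundy colouring with many colours of a graph without large cliques, half graphs and crowns
yields induced complete trees. -/
theorem tree_embed (T K R : ℕ) : ∃ N : ℕ, ∀ (V : Type) (H : SimpleGraph V) (κ : V → ℕ),
    Grundy H κ → ∀ v0, N ≤ κ v0 → ¬ HasClique H T → ¬ HasHalfGraph H T → ¬ HasCrown H T →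
    ∃ e : List ℕ → V, ∀ v w, Node K R v → Node K R w →
      (H.Adj (e v) (e w) ↔ (∃ k, v = k :: w) ∨ (∃ k, w = k :: v)) := by
  obtain ⟨D, hD⟩ := levels T R
  obtain ⟨N, hN⟩ := exists_hom (((T + 2) * (2 * D) + 1) + (D + 1) * (D + 1) + (Ar D K R + D)) D
  refine ⟨N, fun V H κ hκ v0 hv0 hK hH hC => ?_⟩
  obtain ⟨𝓗⟩ := hN V H κ hκ v0 hv0
  set n := ((T + 2) * (2 * D) + 1) + (D + 1) * (D + 1) + (Ar D K R + D) with hndef
  have hn1 : (T + 2) * (2 * D) + 1 ≤ n := by omega
  have hn2 : (D + 1) * (D + 1) ≤ n := by omega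
  have hn3 : Ar D K R + D ≤ n := by omega
  have hedge : ∀ x, x + 1 ≤ D → 𝓗.P 0 (x + 1 - x) x := by
    intro x hx
    rw [← 𝓗.chainT_adj hn2 (by omega) hx]
    have h := 𝓗.hedge (M D (x + 1)) (chainT D x)
      ((seg_chainT hn2 (x + 1) hx).mono (Nat.zero_le _) le_rfl)
    exact h.symm
  rcases hD (fun x y => 𝓗.P 0 (y - x) x) hedge with ⟨x, hx, hxD, hE⟩ | ⟨z, z1, z2, z3⟩ |
    ⟨x, y, l1, l2, l3, l4, l5⟩
  · refine ⟨fun w => 𝓗.c (lst D K R x w), ?_⟩
    intro v w hv hw
    rcases suffix_cases v w with rfl | ⟨u, j, rfl⟩ | ⟨u, j, rfl⟩ | ⟨u, u', i, j, z, hij, rfl, rfl⟩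
    · constructor
      · intro h; exact absurd h (H.loopless.irrefl _)
      · rintro (⟨k, hk⟩ | ⟨k, hk⟩)
        · have := congrArg List.length hk
          simp at this
        · have := congrArg List.length hk
          simp at this
    · rw [SimpleGraph.adj_comm, 𝓗.tree_desc hn3 hx hxD hE hv]
      constructor
      · rintro rfl
        left; exact ⟨j, rfl⟩
      · rintro (⟨k, hk⟩ | ⟨k, hk⟩)
        · have := congrArg List.length hk
          simp at this
          exact this
        · have := congrArg List.length hk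
          simp at this
          omega
    · rw [𝓗.tree_desc hn3 hx hxD hE hw]
      constructor
      · rintro rfl
        right; exact ⟨j, rfl⟩
      · rintro (⟨k, hk⟩ | ⟨k, hk⟩)
        · have := congrArg List.length hk
          simp at this
          omega
        · have := congrArg List.length hk
          simp at this
          exact this
    · have hno : ¬ H.Adj (𝓗.c (lst D K R x (u ++ i :: z))) (𝓗.c (lst D K R x (u' ++ j :: z))) := by
        rcases Nat.lt_or_gt_of_ne hij with h | h
        · exact 𝓗.tree_inc hn1 hK hH hC hn3 hx hxD h hv hw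
        · intro hadj
          exact 𝓗.tree_inc hn1 hK hH hC hn3 hx hxD h hw hv hadj.symm
      constructor
      · intro h; exact absurd h hno
      · have hne : ∀ (u u' : List ℕ) (i j k : ℕ), i ≠ j → u ++ i :: z ≠ k :: (u' ++ j :: z) := by
          intro u u' i j k hij hk
          have h1 : (u ++ [i]) ++ z = ((k :: u') ++ [j]) ++ z := by simpa using hk
          have h2 := congrArg List.getLast? (List.append_cancel_right h1)
          rw [List.getLast?_concat, List.getLast?_concat] at h2
          exact hij (Option.some.inj h2)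
        rintro (⟨k, hk⟩ | ⟨k, hk⟩)
        · exact absurd hk (hne u u' i j k hij)
        · exact absurd hk (hne u' u j i k hij.symm)
  · exact absurd (𝓗.no_clique_levels hn2 hK z z1 z2 z3) not_false
  · exact absurd (𝓗.no_ladder hn1 hn2 hK hH hC x y l1 l2 l3 l4 l5) not_false

end H7.Online
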